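import Mathlib
import Pool.Agent.PNH.ParL
import Pool.Agent.PNH.Hun
import Pool.Agent.HTK.Exa
import Pool.Agent.HTK.Ana
import Pool.Agent.HFW.Ord

set_option autoImplicit false

/-!
# Preperiodic points of 100 per cent of the morphisms of projective space

`K` is a number field, `𝓞 K` its ring of integers.  A tuple of `N + 1` forms of degree `d` in
`N + 1` variables without a nontrivial common zero over the algebraic closure is a morphism of
degree `d` of the projective space of dimension `N`.  The members of a family are obtained from a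
tuple with coefficients in `𝓞 K[s_1, …, s_r]` by evaluating `s` at points of `K^r`; its generic
member has coefficients in the field `K(s_1, …, s_r)`.
-/

namespace Pool.Agent.Results.MP_13bc7b_nt.AlmostAllMorphisms

open NumberField Filter

/-- `N + 1` polynomials in `N + 1` variables. -/
abbrev Tup (N : ℕ) (A : Type) [CommRing A] : Type :=
  Fin (N + 1) → MvPolynomial (Fin (N + 1)) A

/-- The map `x ↦ (F_0(x), …, F_N(x))`. -/
noncomputable def app {N : ℕ} {A : Type} [CommRing A] (F : Tup N A) (x : Fin (N + 1) → A) :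
    Fin (N + 1) → A :=
  fun i => MvPolynomial.eval x (F i)

/-- Change of the ring of coefficients. -/
noncomputable def mp {N : ℕ} {A B : Type} [CommRing A] [CommRing B] (f : A →+* B) (F : Tup N A) :
    Tup N B :=
  fun i => MvPolynomial.map f (F i)

/-- The vectors `x` and `y` are proportional. -/
def Par {N : ℕ} {A : Type} [CommRing A] (x y : Fin (N + 1) → A) : Prop :=
  ∀ i j, x i * y j = x j * y i

/-- The first nonzero coordinate of `x` is `1`: every point of the projective space over a field has
exactly one such representative. -/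
def Nrm {N : ℕ} {A : Type} [CommRing A] (x : Fin (N + 1) → A) : Prop :=
  ∃ i, x i = 1 ∧ ∀ j, j < i → x j = 0

/-- The coordinates of `x` lie in an extension of degree at most `D` of `k`. -/
def DegLe (k : Type) {L : Type} [Field k] [Field L] [Algebra k L] {N : ℕ} (D : ℕ)
    (x : Fin (N + 1) → L) : Prop :=
  ∃ θ : L, (minpoly k θ).natDegree ≤ D ∧ ∀ i, x i ∈ IntermediateField.adjoin k {θ}

/-- `F` is a tuple of forms of degree `d` without a common zero over the algebraic closure of `k`
other than `0`: a morphism of projective space of degree `d`. -/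
def IsMor {N : ℕ} (d : ℕ) (k : Type) [Field k] (F : Tup N k) : Prop :=
  (∀ i, (F i).IsHomogeneous d) ∧
    ∀ x : Fin (N + 1) → AlgebraicClosure k, app (mp (algebraMap k (AlgebraicClosure k)) F) x = 0 →
      x = 0

/-- The preperiodic points of `F` over the algebraic closure of `k` which are defined over an
extension of degree at most `D` of `k`. -/
def Pre (k : Type) [Field k] {N : ℕ} (D : ℕ) (F : Tup N k) :
    Set (Fin (N + 1) → AlgebraicClosure k) :=
  {x | Nrm x ∧ DegLe k D x ∧ ∃ a b : ℕ, a < b ∧
    Par ((app (mp (algebraMap k (AlgebraicClosure k)) F))^[a] x)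
      ((app (mp (algebraMap k (AlgebraicClosure k)) F))^[b] x)}

/-- There are only finitely many `x ∈ S` with `h x ≤ B`, and `Q x` holds for 100 per cent of them as
`B → ∞`. -/
def AlmostAll {S : Type} (h : S → ℝ) (Q : S → Prop) : Prop :=
  (∀ B : ℝ, {x | h x ≤ B}.Finite) ∧
    Tendsto (fun B : ℝ => ({x | h x ≤ B ∧ Q x}.ncard : ℝ) / {x | h x ≤ B}.ncard) atTop (nhds 1)

/-- The mean of `g` over the `x ∈ S` with `h x ≤ B`. -/
noncomputable def mean {S : Type} (h g : S → ℝ) (B : ℝ) : ℝ :=
  (∑ᶠ x ∈ {x | h x ≤ B}, g x) / {x | h x ≤ B}.ncard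

/-- The Weil height (relative to `K`) of the point `(1 : s_1 : … : s_r)`. -/
noncomputable def weil {K : Type} [Field K] [NumberField K] {r : ℕ} (s : Fin r → K) : ℝ :=
  Height.mulHeight (Fin.cons 1 s : Fin (r + 1) → K)

/-- The field `K(s_1, …, s_r)`. -/
abbrev RatS (K : Type) [Field K] [NumberField K] (r : ℕ) : Type :=
  FractionRing (MvPolynomial (Fin r) (𝓞 K))

/-- The member of the family `F` at the point `s`. -/
noncomputable def member {K : Type} [Field K] [NumberField K] {N r : ℕ}
    (F : Tup N (MvPolynomial (Fin r) (𝓞 K))) (s : Fin r → K) : Tup N K :=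
  mp (MvPolynomial.eval₂Hom (algebraMap (𝓞 K) K) s) F

/-- The generic member of the family `F`. -/
noncomputable def generic {K : Type} [Field K] [NumberField K] {N r : ℕ}
    (F : Tup N (MvPolynomial (Fin r) (𝓞 K))) : Tup N (RatS K r) :=
  mp (algebraMap (MvPolynomial (Fin r) (𝓞 K)) (RatS K r)) F

/-- For 100 per cent of the `x ∈ S`, ordered by `h`, the member of the family `F` at the point `p x`
is a morphism with exactly as many preperiodic points of degree at most `D` as the generic
member. -/
def LikeGeneric {K : Type} [Field K] [NumberField K] {N r : ℕ} (d D : ℕ)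
    (F : Tup N (MvPolynomial (Fin r) (𝓞 K))) {S : Type} (h : S → ℝ) (p : S → Fin r → K) : Prop :=
  AlmostAll h fun x => IsMor d K (member F (p x)) ∧ (Pre K D (member F (p x))).Finite ∧
    (Pre K D (member F (p x))).ncard = (Pre (RatS K r) D (generic F)).ncard

/-- The tuple of forms of degree `d` with the coefficients `s`; `e` numbers the coefficients. -/
noncomputable def forms {K : Type} [Field K] {N d r : ℕ}
    (e : Fin r ≃ Fin (N + 1) × {α : Fin (N + 1) →₀ ℕ // α.degree = d}) (s : Fin r → K) : Tup N K :=
  fun i => ∑ t : Fin r, if (e t).1 = i then MvPolynomial.monomial (e t).2.1 (s t) else 0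

/-- The number `1 + d + … + d ^ N` of the fixed points of a morphism of degree `d`; for `N = 1`,
`d = 2` the number `2` of the points of period `2`. -/
def least (N d : ℕ) : ℕ :=
  if N = 1 ∧ d = 2 then 2 else ∑ i ∈ Finset.range (N + 1), d ^ i

/-- The `n`-th iterate of `F` at the point `(1, X)` of the projective line: it is the rational
function `iter n F 1 / iter n F 0`. -/
noncomputable def iter {A : Type} [CommRing A] (n : ℕ) (F : Tup 1 A) : Fin 2 → Polynomial A :=
  (app (mp Polynomial.C F))^[n] ![1, Polynomial.X]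

/-- `x` is a fixed point of the rational function `f / g`, with multiplier `m = (f / g)'(x)`. -/
def IsMultiplier {A Ω : Type} [CommRing A] [Field Ω] [Algebra A Ω] (f g : Polynomial A)
    (x m : Ω) : Prop :=
  Polynomial.aeval x f = x * Polynomial.aeval x g ∧
    m * Polynomial.aeval x g ^ 2 =
      Polynomial.aeval x (Polynomial.derivative f) * Polynomial.aeval x g -
        Polynomial.aeval x f * Polynomial.aeval x (Polynomial.derivative g)

/-- A periodic point `(1, x)` over the extension `Ω` of the ring of coefficients has a multiplier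
that is not algebraic over `ℚ`. -/
def VariesIn {A : Type} (Ω : Type) [CommRing A] [Field Ω] [Algebra A Ω] (F : Tup 1 A) : Prop :=
  ∃ n : ℕ, 1 ≤ n ∧ ∃ x m : Ω, IsMultiplier (iter n F 1) (iter n F 0) x m ∧ Transcendental ℤ m

open Classical in
/-- The mean of `φ(number of preperiodic points of degree at most D)` over the members of the family
`F` at the points `p x`, `x ∈ S`, ordered by `h` (with `0` in the place of `φ` if the member is not a
morphism), tends to the value of `φ` at the generic member, for every `φ` with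
`|φ(m)| ≤ exp (m ^ (1/4))`, and the means of `exp (number ^ (1/3))` are bounded. -/
def Moments {K : Type} [Field K] [NumberField K] {r : ℕ} (d D : ℕ)
    (F : Tup 1 (MvPolynomial (Fin r) (𝓞 K))) {S : Type} (h : S → ℝ) (p : S → Fin r → K) : Prop :=
  (∃ C : ℝ, ∀ B : ℝ, 1 ≤ B → mean h (fun x => if IsMor d K (member F (p x)) then
    Real.exp (((Pre K D (member F (p x))).ncard : ℝ) ^ ((1 : ℝ) / 3)) else 0) B ≤ C) ∧
  ∀ φ : ℕ → ℝ, (∀ m : ℕ, |φ m| ≤ Real.exp ((m : ℝ) ^ ((1 : ℝ) / 4))) →
    Tendsto (mean h fun x => if IsMor d K (member F (p x)) then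
      φ (Pre K D (member F (p x))).ncard else 0) atTop
      (nhds (φ (Pre (RatS K r) D (generic F)).ncard))

theorem iter_eq {A : Type} [CommRing A] {d : ℕ} (n : ℕ) (F : Tup 1 A)
    (hF : ∀ i, (F i).IsHomogeneous d) :
    iter n F = ![(Pool.Agent.FAM.itP d n (Pool.Agent.PNH.num F) (Pool.Agent.PNH.den F)).2,
      (Pool.Agent.FAM.itP d n (Pool.Agent.PNH.num F) (Pool.Agent.PNH.den F)).1] := by
  unfold iter
  induction n with
  | zero => rfl
  | succ n ih =>
    rw [Function.iterate_succ_apply', ih, Pool.Agent.FAM.IterAux.itP_succ]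
    have h := Pool.Agent.PNH.app_swap (Pool.Agent.PNH.mp (Polynomial.C : A →+* Polynomial A) F)
      (Pool.Agent.PNH.hom_mp d _ F hF)
      (Pool.Agent.FAM.itP d n (Pool.Agent.PNH.num F) (Pool.Agent.PNH.den F))
    rw [(Pool.Agent.PNH.num_mp _ F).1, (Pool.Agent.PNH.num_mp _ F).2] at h
    exact h

theorem transcendental_int {Ω : Type} [Field Ω] (i : Algebra ℤ Ω) {m : Ω}
    (h : @Transcendental ℤ Ω _ _ (Ring.toIntAlgebra Ω) m) : @Transcendental ℤ Ω _ _ i m := by
  have hi : i = Ring.toIntAlgebra Ω := Subsingleton.elim _ _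
  subst hi
  exact h

/-- Let `K` be a number field, `d ≥ 2` and `D ≥ 0`.
(1) In every algebraic family `F` of tuples of forms of degree `d` whose generic member is a morphism
of projective space of any dimension `N`, the generic member has only finitely many preperiodic points
of degree at most `D`, and for 100 per cent of the points `s ∈ K^r`, ordered by Weil height, and for
100 per cent of the points `s ∈ ℤ^r`, ordered by `max |s_i|`, the member is a morphism with exactly as
many preperiodic points of degree at most `D` over `K`.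
(2) For every `N ≥ 1`, 100 per cent of all `(N+1)`-tuples of forms of degree `d` over `K`, ordered by
the Weil height of the point formed by the coefficients, are morphisms, and the least degree over `K`
of a preperiodic point is exactly `1 + d + … + d ^ N` (exactly `2` if `N = 1` and `d = 2`).
(3) If `N = 1` and the multiplier of a periodic point of the generic member is not algebraic over `ℚ`,
then, in both orderings, all moments of the number of preperiodic points of degree at most `D`
converge to the generic ones. -/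
theorem result (K : Type) [Field K] [NumberField K] (d D : ℕ) (hd : 2 ≤ d) :
    (∀ (N r : ℕ) (F : Tup N (MvPolynomial (Fin r) (𝓞 K))), IsMor d (RatS K r) (generic F) →
      (Pre (RatS K r) D (generic F)).Finite ∧ LikeGeneric d D F weil id ∧
        LikeGeneric d D F (fun s : Fin r → ℤ => ‖s‖) fun s i => (s i : K)) ∧
    (∀ (N r : ℕ) (e : Fin r ≃ Fin (N + 1) × {α : Fin (N + 1) →₀ ℕ // α.degree = d}), 1 ≤ N →
      AlmostAll (fun P : Projectivization K (Fin r → K) => P.mulHeight) fun P =>
        IsMor d K (forms e P.rep) ∧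
          ∀ D', (Pre K D' (forms e P.rep)).Nonempty ↔ least N d ≤ D') ∧
    ∀ (r : ℕ) (F : Tup 1 (MvPolynomial (Fin r) (𝓞 K))), IsMor d (RatS K r) (generic F) →
      VariesIn (AlgebraicClosure (RatS K r)) F → Moments d D F weil id ∧
        Moments d D F (fun s : Fin r → ℤ => ‖s‖) fun s i => (s i : K) := by
  classical
  refine ⟨fun N r F hF => ⟨(Pool.Agent.PNH.hundred hd D F hF).1, ?_, ?_⟩, fun N r e hN => ?_,
    fun r F hF hv => ?_⟩
  · exact ⟨Pool.Agent.HFW.aff_finite, Pool.Agent.HTK.hundred_of _ Pool.Agent.HFW.aff_finite 0 _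
      fun ε hε => Pool.Agent.HFW.fam_exc hd D F hF ε hε⟩
  · refine ⟨Pool.Agent.HFW.ball_finite, Pool.Agent.HTK.hundred_of _ Pool.Agent.HFW.ball_finite 0 _
      fun ε hε => Pool.Agent.HFW.int_exc _ ?_ ε hε⟩
    have h := (Pool.Agent.PNH.hundred hd D F hF).2
    simp only [Pool.Agent.HFW.mem_eq] at h
    exact h
  · refine ⟨fun B => Pool.Agent.HTK.pts_finite K r B, ?_⟩
    have hr : 2 ≤ r := by
      have h1 : Function.Injective (fun i : Fin (N + 1) =>
          e.symm (i, ⟨Finsupp.single 0 d, Finsupp.degree_single _ _⟩)) := by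
        intro i j hij
        have := e.symm.injective hij
        exact (Prod.ext_iff.1 this).1
      have := Fintype.card_le_of_injective _ h1
      rw [Fintype.card_fin, Fintype.card_fin] at this
      omega
    have hne : (fun _ : Fin r => (1 : K)) ≠ 0 := fun h =>
      one_ne_zero (α := K) (congrFun h ⟨0, by omega⟩)
    exact Pool.Agent.HTK.hundred_of _ (fun B => Pool.Agent.HTK.pts_finite K r B)
      (Projectivization.mk K _ hne) _
      fun ε hε => Pool.Agent.HTK.forms_exact K hN hd e ε hε
  · have hv' : Pool.Agent.FamK.Varies d (Pool.Agent.PNH.num F) (Pool.Agent.PNH.den F) := by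
      obtain ⟨n, hn, x, m, ⟨h1, h2⟩, h3⟩ := hv
      have hFh : ∀ i, (F i).IsHomogeneous d := Pool.Agent.PNH.hom_of_gen F hF.1
      rw [iter_eq n F hFh] at h1 h2
      exact ⟨n, hn, x, m, h1, h2, transcendental_int _ h3⟩
    have hmom : ∀ {S : Type} (h : S → ℝ) (p : S → Fin r → K)
        (hfin : ∀ B : ℝ, {x | h x ≤ B}.Finite) (x₀ : S) (h0 : h x₀ ≤ 1)
        (hex : ∀ ε : ℝ, 0 < ε → ∃ B₀ : ℝ, ∀ B : ℝ, B₀ ≤ B →
          ({x | h x ≤ B ∧ ¬ (IsMor d K (member F (p x)) ∧ (Pre K D (member F (p x))).Finite ∧
            (Pre K D (member F (p x))).ncard = (Pre (RatS K r) D (generic F)).ncard)}.ncard : ℝ) ≤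
            ε * ({x | h x ≤ B}.ncard : ℝ))
        (hbd : ∃ C : ℝ, ∀ B : ℝ, 1 ≤ B → ∑ᶠ x ∈ {x | h x ≤ B},
          (if IsMor d K (member F (p x)) then
            Real.exp (((Pre K D (member F (p x))).ncard : ℝ) ^ ((1 : ℝ) / 3)) else 0) ≤
          C * ({x | h x ≤ B}.ncard : ℝ)), Moments d D F h p := by
      intro S h p hfin x₀ h0 hex hbd
      obtain ⟨C, hC⟩ := hbd
      refine ⟨⟨C, fun B hB => ?_⟩, fun φ hφ => ?_⟩
      · have hpos := Pool.Agent.HTK.ncard_pos h hfin x₀ (h0.trans hB)
        unfold mean
        rw [div_le_iff₀ hpos]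
        exact hC B hB
      · refine Pool.Agent.HTK.mean_of h hfin x₀ (fun x => IsMor d K (member F (p x)))
          (fun x => (Pre K D (member F (p x))).ncard) _ (fun ε hε => ?_) C 1 hC φ hφ
        obtain ⟨B₀, hB₀⟩ := hex ε hε
        refine ⟨B₀, fun B hB => le_trans ?_ (hB₀ B hB)⟩
        refine Nat.cast_le.2 (Set.ncard_le_ncard ?_ ((hfin B).subset fun x hx => hx.1))
        exact fun x hx => ⟨hx.1, fun hg => hx.2 ⟨hg.1, hg.2.2⟩⟩
    refine ⟨hmom weil id Pool.Agent.HFW.aff_finite 0 (Pool.Agent.HFW.aff_base r)
      (fun ε hε => Pool.Agent.HFW.fam_exc hd D F hF ε hε)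
      (Pool.Agent.HFW.fam_bd hd D F hF hv'), ?_⟩
    refine hmom _ _ Pool.Agent.HFW.ball_finite 0 (by rw [norm_zero]; exact zero_le_one)
      (fun ε hε => Pool.Agent.HFW.int_exc _ ?_ ε hε) (Pool.Agent.HFW.int_bd hd D F hF hv')
    have h := (Pool.Agent.PNH.hundred hd D F hF).2
    simp only [Pool.Agent.HFW.mem_eq] at h
    exact h

end Pool.Agent.Results.MP_13bc7b_nt.AlmostAllMorphisms
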