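import Mathlib
import Pool.Agent.RI.TPolyHM

set_option autoImplicit false

/-!
# The number of preperiodic points of bounded degree of a polynomial

`F` is a polynomial of degree `d` over the ring of integers `𝓞 K` of a number field `K`, with leading
coefficient `a`, and `b ≠ 0` is an integer of `K`. All the points of degree at most `N` over `K`
which are preperiodic for `f = F / b` are counted together. The absolute values of `K` are the
`v`-adic ones, `GPoly.av v x = N(v) ^ (-v(x))`, and those of the embeddings `σ` of `K` into `ℂ`,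
`NumberField.place σ x = |σ x|`.
-/

namespace Pool.Agent.Results.MP_13bc7b_nt.PolynomialsLog

open Polynomial NumberField IsDedekindDomain

/-- The point `x` is preperiodic for `f`. -/
def Preperiodic {α : Type} (f : α → α) (x : α) : Prop := ∃ m n : ℕ, m < n ∧ f^[m] x = f^[n] x

variable {K : Type} [Field K]

/-- The points of degree at most `N` over `K` (in an algebraic closure of `K`) which are preperiodic
for the polynomial `f`. -/
def Pts (N : ℕ) (f : K[X]) : Set (AlgebraicClosure K) :=
  {x | (minpoly K x).natDegree ≤ N ∧ Preperiodic (fun z => aeval z f) x}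

/-- The local height `H_w(f) = max_j |c_j|_w ^ (d - 1) / |c_d|_w ^ (j - 1)` of the polynomial
`f = ∑ c_j X ^ j` of degree `d` for the absolute value `w` of `K`. -/
noncomputable def localHeight (w : AbsoluteValue K ℝ) (f : K[X]) : ℝ :=
  ⨆ j : Fin (f.natDegree + 1),
    w (f.coeff j) ^ (f.natDegree - 1) * w f.leadingCoeff / w f.leadingCoeff ^ (j : ℕ)

variable [NumberField K]

/-- The polynomial `F / b`. -/
noncomputable def quot (F : (𝓞 K)[X]) (b : 𝓞 K) : K[X] :=
  C (algebraMap (𝓞 K) K b)⁻¹ * F.map (algebraMap (𝓞 K) K)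

/-- The prime `v` is defective for `F / b`: either it does not divide `b`, it divides the leading
coefficient, but not with multiplicity greater than `l`, and the local height of `F / b` at `v` is
greater than `1`; or it divides `b` and not the leading coefficient, and `F` modulo `v` has an
irreducible factor of degree greater than `N`. -/
def Defective (l N : ℕ) (F : (𝓞 K)[X]) (b : 𝓞 K) (v : HeightOneSpectrum (𝓞 K)) : Prop :=
  (b ∉ v.asIdeal ∧ F.leadingCoeff ∈ v.asIdeal ∧ F.leadingCoeff ∉ v.asIdeal ^ (l + 1) ∧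
    1 < localHeight (GPoly.av v) (quot F b)) ∨
  (F.leadingCoeff ∉ v.asIdeal ∧ b ∈ v.asIdeal ∧
    ∃ h : (𝓞 K ⧸ v.asIdeal)[X], Irreducible h ∧ N < h.natDegree ∧
      h ∣ F.map (Ideal.Quotient.mk v.asIdeal))

/-- `m ≤ 2`, or the coefficient of `X ^ (d - 1)` in `F` is `0` and `m ≤ H_w(f)` for an infinite
place `w`, or `m ≤ |d|_w ^ (d (d - 1)) H_w(f)` for a prime `w`, where `f = F / b`, `d = deg F`. -/
def OnePlace (F : (𝓞 K)[X]) (b : 𝓞 K) (m : ℝ) : Prop :=
  m ≤ 2 ∨ F.coeff (F.natDegree - 1) = 0 ∧
    ((∃ v : HeightOneSpectrum (𝓞 K), m ≤ GPoly.av v (F.natDegree : K) ^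
        (F.natDegree * (F.natDegree - 1)) * localHeight (GPoly.av v) (quot F b)) ∨
      ∃ σ : K →+* ℂ, m ≤ localHeight (NumberField.place σ) (quot F b))

omit [NumberField K] in
theorem pts_eq (N : ℕ) (f : K[X]) : Pts N f = {x : AlgebraicClosure K |
    (minpoly K x).natDegree ≤ N ∧
      GPoly.Pre (fun z => (f.map (algebraMap K (AlgebraicClosure K))).eval z) x} := by
  have h : (fun z : AlgebraicClosure K => aeval z f) =
      fun z => (f.map (algebraMap K (AlgebraicClosure K))).eval z := by
    funext z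
    rw [eval_map_algebraMap]
  ext x
  exact and_congr_right fun _ => by rw [Preperiodic, GPoly.Pre, h]

theorem defective_iff (l N d : ℕ) (hd : 2 ≤ d) (F : (𝓞 K)[X]) (b : 𝓞 K) (hF : F.natDegree = d)
    (v : HeightOneSpectrum (𝓞 K)) :
    Defective l N F b v ↔ PQ.DefA l F b v ∨ PQ.DefB N F b v := by
  refine or_congr (and_congr_right fun hb => ?_) Iff.rfl
  refine and_congr_right fun _ => and_congr_right fun _ => ?_
  rw [RI.TPolyH.harmless_iff d hd F b hF v hb, not_le]
  exact Iff.rfl

/-- Let `f = F / b`, where `F` has degree `d` and leading coefficient `a`. Let `S` be a set of `s`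
primes, and let the product of the local heights `H_v(f)` over the primes `v` which are not in `S`
and not defective be at most `(m D) ^ k`, where `D` is the product of `|a b|_v⁻¹` over the defective
primes and `m ≥ 1` is at most `2` or at most the local height of `f` at one place. Then `f` has at
most `C t log (t + 1)` preperiodic points of degree at most `N` over `K`, `t = [K : ℚ] + k + s`. -/
theorem result (N d l : ℕ) (hd : 2 ≤ d) : ∃ C₀ : ℝ,
    ∀ (K : Type) [Field K] [NumberField K] (F : (𝓞 K)[X]) (b : 𝓞 K), F.natDegree = d → b ≠ 0 →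
    ∀ (S : Finset (HeightOneSpectrum (𝓞 K))) (k : ℕ) (m : ℝ), 1 ≤ m → OnePlace F b m →
    ∏ᶠ (v : HeightOneSpectrum (𝓞 K)) (_ : v ∉ S ∧ ¬ Defective l N F b v),
        localHeight (GPoly.av v) (quot F b) ≤
      (m * ∏ᶠ (v : HeightOneSpectrum (𝓞 K)) (_ : Defective l N F b v),
        (GPoly.av v (algebraMap (𝓞 K) K (F.leadingCoeff * b)))⁻¹) ^ k →
    (Pts N (quot F b)).Finite ∧
      ((Pts N (quot F b)).ncard : ℝ) ≤ C₀ * ((Module.finrank ℚ K + k + S.card) *
        Real.log (Module.finrank ℚ K + k + S.card + 1)) := by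
  obtain ⟨C₀, hC₀, h₀⟩ := RI.main_TPolyH N d l hd
  refine ⟨C₀, ?_⟩
  intro K _ _ F b hF hb S k m hm1 hm hprod
  rw [pts_eq]
  have hm' : RI.HLe d F b m := by
    rcases hm with hm | hm
    · exact Or.inl hm
    · rw [hF] at hm
      exact Or.inr hm
  refine h₀ K F b hF hb S k m hm1 hm' ?_
  have ha0 : F.leadingCoeff ≠ 0 := by
    intro h0
    rw [leadingCoeff_eq_zero] at h0
    rw [h0, natDegree_zero] at hF
    omega
  have hab : F.leadingCoeff * b ≠ 0 := mul_ne_zero ha0 hb
  obtain ⟨P, hP1, hP2⟩ := RI.TPolyH.locH_support d hd F b hF hb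
  have hpos : ∀ v : HeightOneSpectrum (𝓞 K), 0 < localHeight (GPoly.av v) (quot F b) := fun v =>
    lt_of_lt_of_le one_pos (RI.TPolyH.one_le_locH (GPoly.av v) (GPoly.fp F b)
      (by rw [RI.TPolyH.fp_deg F b hb, hF]; omega))
  have hpos2 : ∀ v : HeightOneSpectrum (𝓞 K),
      0 < (GPoly.av v (algebraMap (𝓞 K) K (F.leadingCoeff * b)))⁻¹ := fun v =>
    inv_pos.2 (GPoly.av_int_pos v _ hab)
  obtain ⟨h1, h2⟩ := RI.TPolyH.log_finprod (fun v => v ∉ S ∧ ¬ Defective l N F b v) _ P
    (fun v _ h => hP2 v h) hpos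
  obtain ⟨h3, h4⟩ := RI.TPolyH.log_finprod (fun v => Defective l N F b v) _ P (fun v _ h => by
    refine hP1 v ?_
    by_contra h5
    exact h (by rw [(GPoly.av_int_eq_one v _).2 h5, inv_one])) hpos2
  have h5 := Real.log_le_log h1 hprod
  rw [Real.log_pow, Real.log_mul (by linarith) h3.ne', h2, h4] at h5
  simp only [Real.log_inv] at h5
  have hp : ∀ v : HeightOneSpectrum (𝓞 K),
      (PQ.DefA l F b v ∨ PQ.DefB N F b v) = Defective l N F b v := fun v =>
    (propext (defective_iff l N d hd F b hF v)).symm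
  simp only [hp]
  exact h5

end Pool.Agent.Results.MP_13bc7b_nt.PolynomialsLog
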