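import Mathlib
import Pool.Agent.RI.TForm
import Pool.Agent.RDF.Main

set_option autoImplicit false

/-!
# The number of preperiodic points of a rational function: `s log s`

`F` and `G` are polynomials of degree at most `d` over the ring of integers `𝓞 K` of a number field
`K`, with nonzero resultant `R` (for the formal degrees `d, d`), and `Φ = (F, G)` is the homogeneous
lift of the rational function `F / G` of degree `d`: `Φ(x, y) = (∑ F_i x^i y^(d-i), ∑ G_i x^i y^(d-i))`
(`lift d F G` in `Pool.Agent.RDF.Defs`, where `wedge` is too; `DegLe` is in `Pool.Agent.RDF.NDefs`,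
`Preper` in `Pool.Agent.RDF.Main`, `act g p = g p` in `Pool.Agent.RI.Conj`, the `v`-adic absolute
value `av v x = N(v) ^ (-v(x))` in `Pool.Agent.GPoly.Places`).
-/

namespace Pool.Agent.Results.MP_13bc7b_nt.SLogS

open NumberField IsDedekindDomain Polynomial Pool.Agent.RDF Pool.Agent.RI Pool.Agent.GPoly

/-- The points of the projective line which are represented by the vectors `p ∈ X` are pairwise
different, of degree at most `N` over `K`, and preperiodic for `F / G`.  (`L` is an arbitrary number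
field containing `K`; `DegLe K N p` says that both coordinates of `p` lie in a subextension of degree
at most `N` over `K`; `wedge p q = 0` if and only if `p` and `q` are proportional.) -/
def Points {K L : Type} [Field K] [Field L] [NumberField L] [Algebra K L]
    (d N : ℕ) (F G : (𝓞 K)[X]) (X : Finset (L × L)) : Prop :=
  (∀ p ∈ X, DegLe K N p ∧
    Preper d (F.map (algebraMap (𝓞 K) L)) (G.map (algebraMap (𝓞 K) L)) p) ∧
  ∀ p ∈ X, ∀ q ∈ X, p ≠ q → wedge p q ≠ 0

/-- `F / G` has potentially good reduction at `v`: over some number field `L` containing `K` there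
are an invertible `2 × 2` matrix `g`, a constant `t ≠ 0` and polynomials `F'`, `G'` of degree at most
`d` over `𝓞 L` with `(F', G') = t g⁻¹ ∘ (F, G) ∘ g` (as homogeneous maps of `L²`), whose resultant is
in no prime of `L` above `v`. -/
def PotGood {K : Type} [Field K] [NumberField K] (d : ℕ) (F G : (𝓞 K)[X])
    (v : HeightOneSpectrum (𝓞 K)) : Prop :=
  ∃ (L : Type) (_ : Field L) (_ : NumberField L) (_ : Algebra K L)
    (g : Matrix (Fin 2) (Fin 2) L) (t : L) (F' G' : (𝓞 L)[X]),
    g.det ≠ 0 ∧ t ≠ 0 ∧ F'.natDegree ≤ d ∧ G'.natDegree ≤ d ∧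
    (∀ p : L × L, act g (lift d (F'.map (algebraMap (𝓞 L) L)) (G'.map (algebraMap (𝓞 L) L)) p) =
      t • lift d (F.map (algebraMap (𝓞 K) L)) (G.map (algebraMap (𝓞 K) L)) (act g p)) ∧
    ∀ w : HeightOneSpectrum (𝓞 L), (∀ a ∈ v.asIdeal, algebraMap (𝓞 K) (𝓞 L) a ∈ w.asIdeal) →
      resultant F' G' d d ∉ w.asIdeal

/-- The numbers `-log |R(Φ')|` for the conjugates `Φ' = A Φ A⁻¹`, `A ∈ GL₂(E)`, of the lift
`Φ = (F, G)` over a field `E` with a norm, which have coefficients of norm at most `1`. -/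
def resSet {E : Type} [NormedField E] (d : ℕ) (F G : E[X]) : Set ℝ :=
  {r | ∃ (F' G' : E[X]) (A : Matrix (Fin 2) (Fin 2) E), A.det ≠ 0 ∧ F'.natDegree ≤ d ∧
    G'.natDegree ≤ d ∧ (∀ i, ‖F'.coeff i‖ ≤ 1) ∧ (∀ i, ‖G'.coeff i‖ ≤ 1) ∧
    (∀ p, lift d F' G' (act A p) = act A (lift d F G p)) ∧
    r = -Real.log ‖resultant F' G' d d‖}

/-- The minimal resultant of `F / G` at the embedding `σ : K → ℂ`: the infimum over all conjugates
over `ℂ` with coefficients of absolute value at most `1` (`0` if it is negative). -/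
noncomputable def minResC {K : Type} [Field K] [NumberField K] (d : ℕ) (F G : (𝓞 K)[X])
    (σ : K →+* ℂ) : ℝ :=
  max 0 (sInf (resSet d (F.map (σ.comp (algebraMap (𝓞 K) K)))
    (G.map (σ.comp (algebraMap (𝓞 K) K)))))

/-- The minimal resultant of `F / G` at the prime `v`: the infimum over all conjugates with
coefficients of norm at most `1`, over all algebraically closed ultrametric fields `E` containing `K`
whose norm is the `v`-adic absolute value on `K`. -/
noncomputable def minRes {K : Type} [Field K] [NumberField K] (d : ℕ) (F G : (𝓞 K)[X])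
    (v : HeightOneSpectrum (𝓞 K)) : ℝ :=
  sInf {r | ∃ (E : Type) (_ : NormedField E) (_ : IsAlgClosed E) (_ : IsUltrametricDist E)
    (_ : Algebra K E), (∀ x : K, ‖algebraMap K E x‖ = av v x) ∧
    r ∈ resSet d (F.map (algebraMap (𝓞 K) E)) (G.map (algebraMap (𝓞 K) E))}

/-- The prime `v` is `(N, l)`-defective for `F / G`.  Either `F` and `G` have, modulo `v`, no common
zero in the projective line of degree at most `N` over the residue field `𝓞 K / v`: no common
irreducible factor of degree at most `N`, and not both coefficients of `X ^ d` in `v`.  Or `F` and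
`G` are linearly independent modulo `v`, the resultant is not in `v ^ (l + 1)`, and for some `j ≤ l`
both components of `Φ^j(X, 1)` are divisible modulo `v` by an irreducible polynomial of degree
greater than `N`: the iterate `Φ^j` modulo `v` has a zero of degree greater than `N`. -/
def Defective {K : Type} [Field K] [NumberField K] (d N l : ℕ) (F G : (𝓞 K)[X])
    (v : HeightOneSpectrum (𝓞 K)) : Prop :=
  ((∀ h : (𝓞 K ⧸ v.asIdeal)[X], Irreducible h → h ∣ F.map (Ideal.Quotient.mk v.asIdeal) →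
      h ∣ G.map (Ideal.Quotient.mk v.asIdeal) → N < h.natDegree) ∧
    (F.coeff d ∉ v.asIdeal ∨ G.coeff d ∉ v.asIdeal)) ∨
  ((∃ i j, F.coeff i * G.coeff j - F.coeff j * G.coeff i ∉ v.asIdeal) ∧
    resultant F G d d ∉ v.asIdeal ^ (l + 1) ∧
    ∃ (h : (𝓞 K ⧸ v.asIdeal)[X]) (j : ℕ), Irreducible h ∧ N < h.natDegree ∧ j ≤ l ∧
      h ∣ ((lift d (F.map C) (G.map C))^[j] (X, 1)).1.map (Ideal.Quotient.mk v.asIdeal) ∧
      h ∣ ((lift d (F.map C) (G.map C))^[j] (X, 1)).2.map (Ideal.Quotient.mk v.asIdeal))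

/-- The prime `v` is bad: `F / G` is neither of potentially good reduction nor `(N, l)`-defective
at `v`. -/
def Bad {K : Type} [Field K] [NumberField K] (d N l : ℕ) (F G : (𝓞 K)[X])
    (v : HeightOneSpectrum (𝓞 K)) : Prop :=
  ¬ PotGood d F G v ∧ ¬ Defective d N l F G v

/-- The sum of the minimal resultants at the bad primes and at the infinite places (all embeddings
`K → ℂ`). -/
noncomputable def badHeight {K : Type} [Field K] [NumberField K] (d N l : ℕ) (F G : (𝓞 K)[X]) :
    ℝ :=
  (∑ᶠ (v : HeightOneSpectrum (𝓞 K)) (_ : Bad d N l F G v), minRes d F G v) +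
    ∑ σ : K →+* ℂ, minResC d F G σ

/-- The sum of `-log |R|_v` over all `(N, l)`-defective primes `v`. -/
noncomputable def defPart {K : Type} [Field K] [NumberField K] (d N l : ℕ) (F G : (𝓞 K)[X]) : ℝ :=
  ∑ᶠ (v : HeightOneSpectrum (𝓞 K)) (_ : Defective d N l F G v),
    -Real.log (av v (algebraMap (𝓞 K) K (resultant F G d d)))

/-- The function `x log (x + 1)`. -/
noncomputable def xlog (x : ℝ) : ℝ := x * Real.log (x + 1)

/-- For all `d ≥ 2`, `N`, `l` there is `C` such that for every number field `K`, of any degree, and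
every rational function `F / G` of degree `d` over `K`, the extensions of `K` of degree at most `N`
contain together

(1) at most `C s log (s + 1)` preperiodic points of `F / G`, `s = [K : ℚ] + #B`, if `B` is a finite
set which contains all bad primes;

(2) at most `C x log (x + 1)` preperiodic points of `F / G`, `x = [K : ℚ] + h / m`, where `h` is the
sum of the minimal resultants at the bad primes and at the infinite places, and `m` is `1`, or the
largest minimal resultant, or the sum of `-log |R|_v` over the defective primes `v` (whichever is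
largest: every positive real number which is at most one of these is allowed);

(3) at most `C s log (s + 1)` preperiodic points of `F / G`, `s = [K : ℚ] + k`, if `d ≥ 3` and the
resultant `R` is divisible exactly once by a prime `v` with `N(v) ^ k ≥ N(R)`. -/
theorem result (N d l : ℕ) (hd : 2 ≤ d) : ∃ C : ℝ, ∀ (K : Type) [Field K] [NumberField K]
    (F G : (𝓞 K)[X]), F.natDegree ≤ d → G.natDegree ≤ d → resultant F G d d ≠ 0 →
    ∀ (L : Type) [Field L] [NumberField L] [Algebra K L] (X : Finset (L × L)),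
    Points d N F G X →
    (∀ B : Finset (HeightOneSpectrum (𝓞 K)), (∀ v, Bad d N l F G v → v ∈ B) →
      (X.card : ℝ) ≤ C * xlog (Module.finrank ℚ K + B.card)) ∧
    (∀ m : ℝ, 0 < m →
      (m ≤ 1 ∨ (∃ v, m ≤ minRes d F G v) ∨ (∃ σ, m ≤ minResC d F G σ) ∨ m ≤ defPart d N l F G) →
      (X.card : ℝ) ≤ C * xlog (Module.finrank ℚ K + badHeight d N l F G / m)) ∧
    (3 ≤ d → ∀ (v : HeightOneSpectrum (𝓞 K)) (k : ℕ), resultant F G d d ∈ v.asIdeal →
      resultant F G d d ∉ v.asIdeal ^ 2 →
      Ideal.absNorm (Ideal.span {resultant F G d d}) ≤ Ideal.absNorm v.asIdeal ^ k →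
      (X.card : ℝ) ≤ C * xlog (Module.finrank ℚ K + k)) := by
  classical
  obtain ⟨C₁, h₁, hC₁⟩ := main_count N d l hd
  obtain ⟨C₂, h₂, hC₂⟩ := main_form N d l hd
  obtain ⟨C₃, h₃, hC₃⟩ : ∃ C₃ : ℝ, 0 ≤ C₃ ∧ (3 ≤ d → ∀ (K : Type) [Field K] [NumberField K],
    ∀ F G : (𝓞 K)[X], F.natDegree ≤ d → G.natDegree ≤ d → resultant F G d d ≠ 0 →
    ∀ (v : HeightOneSpectrum (𝓞 K)) (k : ℕ), resultant F G d d ∈ v.asIdeal →
    resultant F G d d ∉ v.asIdeal ^ 2 →
    Ideal.absNorm (Ideal.span {resultant F G d d}) ≤ Ideal.absNorm v.asIdeal ^ k →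
    ∀ (L : Type) [Field L] [NumberField L] [Algebra K L], ∀ X : Finset (L × L),
      (∀ p ∈ X, Pool.Agent.RDF.DegLe K N p ∧ p ≠ 0 ∧ ∃ a b : ℕ, a < b ∧
        wedge ((lift d (F.map (algebraMap (𝓞 K) L)) (G.map (algebraMap (𝓞 K) L)))^[a] p)
          ((lift d (F.map (algebraMap (𝓞 K) L)) (G.map (algebraMap (𝓞 K) L)))^[b] p) = 0) →
      (∀ p ∈ X, ∀ q ∈ X, p ≠ q → wedge p q ≠ 0) →
      (X.card : ℝ) ≤ C₃ * ((k + Module.finrank ℚ K) *
        Real.log (k + Module.finrank ℚ K + 1))) := by
    by_cases h3 : 3 ≤ d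
    · obtain ⟨C₃, h₃, hC₃⟩ := main_big N d h3
      exact ⟨C₃, h₃, fun _ => hC₃⟩
    · exact ⟨0, le_rfl, fun h => absurd h h3⟩
  refine ⟨C₁ + C₂ + C₃, ?_⟩
  intro K _ _ F G hF hG hR L _ _ _ X hX
  have hX' : ∀ p ∈ X, Pool.Agent.RDF.DegLe K N p ∧ p ≠ 0 ∧ ∃ a b : ℕ, a < b ∧
        wedge ((lift d (F.map (algebraMap (𝓞 K) L)) (G.map (algebraMap (𝓞 K) L)))^[a] p)
          ((lift d (F.map (algebraMap (𝓞 K) L)) (G.map (algebraMap (𝓞 K) L)))^[b] p) = 0 :=
    fun p hp => ⟨(hX.1 p hp).1, (hX.1 p hp).2⟩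
  have hpos : ∀ x : ℝ, 0 ≤ x → 0 ≤ x * Real.log (x + 1) := fun x hx =>
    mul_nonneg hx (Real.log_nonneg (by linarith))
  have hn : (0 : ℝ) ≤ Module.finrank ℚ K := Nat.cast_nonneg _
  refine ⟨?_, ?_, ?_⟩
  · intro B hB
    have h := hC₁ K F G hF hG hR B (fun v hv => by
      by_contra h4
      exact hv (hB v ⟨fun h5 => h4 (Or.inl h5), fun h5 => h4 (Or.inr h5)⟩)) L X hX' hX.2
    rw [add_comm (B.card : ℝ)] at h
    have h5 := hpos (Module.finrank ℚ K + B.card) (by positivity)
    rw [xlog]
    nlinarith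
  · intro m hm0 hm
    have h := hC₂ K F G hF hG hR m hm0 hm (Module.finrank ℚ K + badHeight d N l F G / m) le_rfl
      L X hX' hX.2
    have h6 : 0 ≤ badHeight d N l F G := hgt_nonneg d N l F G hF hG hR
    have h5 := hpos (Module.finrank ℚ K + badHeight d N l F G / m) (by positivity)
    rw [xlog]
    nlinarith
  · intro h3 v k hv hv2 hk
    have h := hC₃ h3 K F G hF hG hR v k hv hv2 hk L X hX' hX.2
    rw [add_comm (k : ℝ)] at h
    have h5 := hpos (Module.finrank ℚ K + k) (by positivity)
    rw [xlog]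
    nlinarith

end Pool.Agent.Results.MP_13bc7b_nt.SLogS
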