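import Pool.Agent.UBC.FinalTw
import Pool.Agent.UBC.Card
import Pool.Agent.UBN.Tw

/-!
# Uniform boundedness for the maps `z ↦ a z ^ e + c` over a number field, `|e| ≥ 4`
-/

namespace Pool.Agent.Results.MP_13bc7b_nt.UniformBoundedness

/-- Let `K` be a number field, `e` an integer, positive or negative, `|e| ≥ 4`, `l ≥ 2` prime to `e`
and `lam ≠ 0` in `K`.  There is a number `B` such that for all `a ≠ 0`, `b`, `c` in `K` with
`a c ^ (e - 1) = lam b ^ l` the map `z ↦ a z ^ e + c` has at most `B` preperiodic points in `K`.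
(If `e < 0`, the map sends `0` to `c`, as `0 → ∞ → c` on the projective line.)

For `l = |e - 1|`, `a = lam = 1`, `b = c` or `c⁻¹` this is the statement that there is a number `B`
such that for every `c` in `K` the map `z ↦ z ^ e + c` has at most `B` preperiodic points in `K`. -/
theorem result (K : Type*) [Field K] [NumberField K] (e : ℤ) (l : ℕ) (he : 4 ≤ |e|) (hl : 2 ≤ l)
    (hcop : IsCoprime (l : ℤ) e) (h43 : ¬ (e = -4 ∧ l = 3)) (h52 : ¬ (e = -5 ∧ l = 2)) (lam : K)
    (hlam : lam ≠ 0) :
    ∃ B : ℕ, ∀ a b c : K, a ≠ 0 → a * c ^ (e - 1) = lam * b ^ l →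
      {x : K | (Set.range fun k : ℕ => (fun z : K => a * z ^ e + c)^[k] x).Finite}.encard ≤ B := by
  rcases le_total 0 e with h0 | h0
  · obtain ⟨d, rfl⟩ := Int.eq_ofNat_of_zero_le h0
    have hd : 4 ≤ d := by
      rw [abs_of_nonneg h0] at he
      exact_mod_cast he
    obtain ⟨B, hB⟩ := UBC.uniform_tw K hd hl (Nat.isCoprime_iff_coprime.1 hcop) hlam
    refine ⟨B, fun a b c ha hab => UBC.encard_le_of_finset fun P hP => ?_⟩
    refine hB a b c ha ?_ P ?_
    · rw [← hab, ← zpow_natCast, Nat.cast_sub (by omega), Nat.cast_one]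
    · intro x hx
      have h := hP x hx
      simp only [zpow_natCast] at h
      exact h
  · obtain ⟨d, hd'⟩ := Int.eq_ofNat_of_zero_le (neg_nonneg.2 h0)
    obtain rfl : e = -(d : ℤ) := by omega
    have hd : 4 ≤ d := by
      rw [abs_neg, Nat.abs_cast] at he
      exact_mod_cast he
    obtain ⟨B, hB⟩ := UBN.uniform K hd hl (Nat.isCoprime_iff_coprime.1 ((IsCoprime.neg_right_iff _ _).1 hcop))
      (by omega) (by omega) hlam
    refine ⟨B, fun a b c ha hab => UBC.encard_le_of_finset fun P hP => ?_⟩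
    refine hB a b c ha ?_ P ?_
    · rw [← hab, show -(d : ℤ) - 1 = -((d + 1 : ℕ) : ℤ) by push_cast; ring, zpow_neg, zpow_natCast,
        div_eq_mul_inv]
    · intro x hx
      have h := hP x hx
      simp only [zpow_neg, zpow_natCast, ← div_eq_mul_inv] at h
      exact h

end Pool.Agent.Results.MP_13bc7b_nt.UniformBoundedness
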